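import Pool.Agent.Q9h3.UC.Poly

/-!
# Approximate counting for 2-CNF formulas by circuits whose negated inputs are unreliable

The number of satisfying assignments of a 2-CNF formula (or of a `k`-CNF formula, `k ≥ 2`): the input
consists of the bits `x c` for all sets `c` of at most `k` literals in `N` variables, and `x c` tells
whether the clause `c` is in the formula. Satisfiability of 2-CNF formulas is easy, but exact counting
is #P-complete already for `k = 2`.

The model: randomised circuits whose inputs are these bits and their negations, with gates that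
compute arbitrary nondecreasing real functions of two arguments. All circuits with AND, OR and NOT
gates can be brought into this form by doubling their size. No bound on the depth is assumed. A
randomised circuit is a finite nonempty family of circuits from which one is chosen uniformly at
random.

Faults: each negated input (the information that `c` is not in the formula) is stuck at `0`,
independently with probability `1 / D`. The other inputs are reliable. More clauses mean fewer
satisfying assignments, so it is natural that formulas with few satisfying assignments are accepted.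

Results:

* If `D ν ^ k ≤ N ^ k` and `ν ^ (1 + k / (k + 1)) ≤ N`, then for some `A` circuits of size less than
  `ν ^ (δ ν ^ (k / (k + 1) - ε))` cannot distinguish formulas with at most `2 ^ A` satisfying
  assignments from formulas with at least `2 ^ (A + ⌊N / ν⌋)` satisfying assignments. So neither the
  exact number nor an approximation within a factor `2 ^ (N / ν - 2)` can be computed. For `k = 2` and
  `ν = N ^ (3 / 5)` the bound is `2 ^ (N ^ (2 / 5 - ε))`, and it holds up to `D = N ^ (4 / 5)`; for
  `ν = N ^ ε` no approximation within `2 ^ (N ^ (1 - ε) - 2)` is possible in polynomial size, up to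
  `D = N ^ (k - k ε)`.
* For `k = 2`, circuits of polynomial size cannot even approximate the number within a factor
  `2 ^ (N / (log N) ^ 2)` if the expected number of faults among the about `2 N ^ 2` negated inputs is
  at least about `2 (log N) ^ (3 + ε)` (where `0 < ε < 1`).

In contrast, satisfiability of 2-CNF formulas is decided by monotone circuits of polynomial size
(reachability in the graph of implications), so there faults of the negated inputs do not matter.
Without faults the results would imply that NP is not contained in P/poly.

The proof: the instances of a constraint satisfaction problem are encoded in formulas. A 2-CNF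
formula cannot say that each constraint is satisfied, but the number of its satisfying assignments is
dominated by the assignments that satisfy most constraints. A clause which says that a tuple of
values is not allowed can be placed at many positions that are equivalent, and gets a random one of
them. Then the positions that the other clauses would get are as good as random faulty inputs.
So all negated inputs that depend on the instance can be replaced by `0`, and this gives a randomised
monotone circuit for the constraint satisfaction problem.
-/

set_option autoImplicit false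

namespace Pool.Agent.Results.MP_4ed1f9_lc.ApproximateCounting

open Finset

/-- A circuit with the gates `0, ..., s - 1` whose inputs are the bits of the elements `e` of `E` and
their negations: `(e, true)` stands for the bit of `e` and `(e, false)` for its negation. Gate `i`
has `w i ≤ 2` inputs, namely `a i j`, each a literal (`0` or `1`) or an earlier gate; it computes a
nondecreasing function `op i` of real numbers, and its value on the values `y` of the literals is
`val y i`. The circuit accepts if the value of gate `out` is at least `τ`. -/
structure LiteralCircuit (E : Type) where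
  s : ℕ
  w : Fin s → ℕ
  a : (i : Fin s) → Fin (w i) → (E × Bool) ⊕ Fin s
  op : (i : Fin s) → (Fin (w i) → ℝ) → ℝ
  val : (E × Bool → Bool) → Fin s → ℝ
  out : Fin s
  τ : ℝ
  earlier : ∀ i j m, a i j = Sum.inr m → m < i
  mono : ∀ i, w i ≤ 2 ∧ Monotone (op i)
  spec : ∀ y i, val y i = op i (fun j =>
    Sum.elim (fun p => if y p = true then (1 : ℝ) else 0) (val y) (a i j))

/-- The clauses with at most `k` literals, where the literal `(v, b)` says that the variable `v` has
the value `b`, and the variables are `0, ..., N - 1`. -/
abbrev Clause (N k : ℕ) : Type := {c : Finset (Fin N × Bool) // c.card ≤ k}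

/-- The number of assignments of values to the variables `0, ..., N - 1` that satisfy the formula
with the clauses `c` such that `x c = true`. -/
noncomputable def numSat {N k : ℕ} (x : Clause N k → Bool) : ℕ :=
  {α : Fin N → Bool | ∀ c : Clause N k, x c = true → ∃ p ∈ c.1, α p.1 = p.2}.ncard

open Classical in
/-- The values of the literals on the input `x` if the negated inputs of the elements of `Z` are
stuck at `0`. -/
noncomputable def literals {E : Type} (x : E → Bool) (Z : Set E) : E × Bool → Bool :=
  fun p => if p.2 = true then x p.1 else if p.1 ∈ Z then false else !x p.1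

/-- The circuit accepts the input `x` if the negated inputs of the elements of `Z` are stuck at
`0`. -/
def LiteralCircuit.Accepts {E : Type} (C : LiteralCircuit E) (x : E → Bool) (Z : Set E) : Prop :=
  C.τ ≤ C.val (literals x Z) C.out

/-- The probability that the input `x` is accepted by a circuit that is chosen uniformly at random
from the family `C`, without faults. -/
noncomputable def acceptance {E R : Type} (C : R → LiteralCircuit E) (x : E → Bool) : ℝ :=
  (Nat.card {ρ : R // (C ρ).Accepts x ∅} : ℝ) / Nat.card R

/-- The probability that the input `x` is accepted by a circuit that is chosen uniformly at random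
from the family `C`, if each negated input is stuck at `0` independently with probability `1 / D`
(each element `e` gets a random number `f e` from `0` to `D - 1`, and `0` means a fault). -/
noncomputable def faultyAcceptance {E R : Type} (C : R → LiteralCircuit E) (D : ℕ)
    (x : E → Bool) : ℝ :=
  (Nat.card {v : R × (E → Fin D) // (C v.1).Accepts x {e | (v.2 e : ℕ) = 0}} : ℝ) /
    Nat.card (R × (E → Fin D))

/-- The circuit in the notation of the library. -/
noncomputable def toRC {E : Type} (C : LiteralCircuit E) : Pool.Agent.W969.MC.RC (E × Bool) :=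
  ⟨C.s, ∅, C.w, C.a, C.op, fun _ _ => 0, C.val, C.out, C.τ, C.earlier,
    fun i _ => C.mono i, fun i hi => absurd hi (Finset.notMem_empty i), C.spec⟩

lemma lit_eq {E : Type} (x : E → Bool) (Z : Set E) :
    Pool.Agent.Y630.TF.lit x Z = literals x Z := by
  funext q
  unfold Pool.Agent.Y630.TF.lit literals
  by_cases hq : q.2 = true
  · rw [if_pos hq, if_pos hq]
  · rw [if_neg hq, if_neg hq]
    by_cases hZ : q.1 ∈ Z
    · simp [hZ]
    · simp [hZ]

lemma yes_bridge {E R : Type} [Fintype E] [Fintype R] [Nonempty R] (C : R → LiteralCircuit E)
    {D : ℕ} (hD : 0 < D) {x : E → Bool} {β : ℝ} (h : β ≤ faultyAcceptance C D x) :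
    β * (Fintype.card R * (D : ℝ) ^ Fintype.card E) ≤
      ({z : R × (E → Fin D) | (toRC (C z.1)).acc
        (Pool.Agent.Y630.TF.lit x (Pool.Agent.Y630.NW.Flt z.2))}.ncard : ℝ) := by
  classical
  have hR : (0 : ℝ) < Fintype.card R := by exact_mod_cast Fintype.card_pos
  have hDR : (0 : ℝ) < D := by exact_mod_cast hD
  unfold faultyAcceptance at h
  rw [le_div_iff₀ (by
    rw [Nat.card_eq_fintype_card, Fintype.card_prod, Fintype.card_fun, Fintype.card_fin]
    push_cast
    positivity)] at h
  rw [Nat.card_eq_fintype_card (α := R × (E → Fin D)), Fintype.card_prod,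
    Fintype.card_fun, Fintype.card_fin] at h
  refine (le_of_eq ?_).trans (h.trans (le_of_eq ?_))
  · push_cast
    rfl
  congr 1
  show Nat.card ↥{v : R × (E → Fin D) | (C v.1).Accepts x {c | (v.2 c : ℕ) = 0}} = _
  rw [Nat.card_coe_set_eq]
  congr 1
  ext v
  show (C v.1).τ ≤ (C v.1).val (literals x {c | (v.2 c : ℕ) = 0}) (C v.1).out ↔
    (C v.1).τ ≤ (C v.1).val (Pool.Agent.Y630.TF.lit x (Pool.Agent.Y630.NW.Flt v.2)) (C v.1).out
  rw [lit_eq]
  rfl

lemma no_bridge {E R : Type} [Fintype R] [Nonempty R] (C : R → LiteralCircuit E)
    {x : E → Bool} {β : ℝ} (h : acceptance C x ≤ β) :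
    ({ρ : R | (toRC (C ρ)).acc (Pool.Agent.Y630.TF.lit x ∅)}.ncard : ℝ) ≤ β * Fintype.card R := by
  classical
  have hR : (0 : ℝ) < Fintype.card R := by exact_mod_cast Fintype.card_pos
  unfold acceptance at h
  rw [div_le_iff₀ (by rw [Nat.card_eq_fintype_card]; exact hR),
    Nat.card_eq_fintype_card (α := R)] at h
  refine (le_of_eq ?_).trans h
  congr 1
  show _ = Nat.card ↥{ρ : R | (C ρ).Accepts x ∅}
  rw [Nat.card_coe_set_eq]
  congr 1
  ext ρ
  show (C ρ).τ ≤ (C ρ).val (Pool.Agent.Y630.TF.lit x ∅) (C ρ).out ↔
    (C ρ).τ ≤ (C ρ).val (literals x ∅) (C ρ).out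
  rw [lit_eq]

/-- Circuits for counting the satisfying assignments of `k`-CNF formulas with `N` variables (`k ≥ 2`)
whose negated inputs are stuck at `0` independently with probability `1 / D`. `C` is a randomised
circuit on literals with nondecreasing real gates of fan-in at most two and with at most `s` gates.

(1) For every `ε > 0` there are `δ > 0` and `ν0` such that for all `ν ≥ ν0`, `N` and `D ≥ 1` with
`D ν ^ k ≤ N ^ k` and `ν ^ (1 + k / (k + 1)) ≤ N` there is `A` with the following property: if for some
`α` all formulas with at most `2 ^ A` satisfying assignments are accepted with probability at least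
`α + ν ^ (-δ)` under faults, and all formulas with at least `2 ^ (A + ⌊N / ν⌋)` satisfying assignments
are accepted with probability at most `α` without faults, then `ν ^ (δ ν ^ (k / (k + 1) - ε)) ≤ s`.

(2) For all `ε > 0` and `c`, all large `N` and all `D ≥ 1` and `G` with
`D (log N) ^ (k + 1 + ε) ≤ N ^ k` and `G (log N) ^ ((k + 1 + ε) / k) ≤ N` there is `A` with the
following property: if for some `α` all formulas with at most `2 ^ A` satisfying assignments are
accepted with probability at least `α + 1 / 3` under faults, and all formulas with at least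
`2 ^ (A + G)` satisfying assignments are accepted with probability at most `α` without faults, then
`N ^ c < s`. -/
theorem result (k : ℕ) (hk : 2 ≤ k) :
    (∀ ε : ℝ, 0 < ε → ∃ δ : ℝ, 0 < δ ∧ ∃ ν0 : ℕ, ∀ ν N D : ℕ, ν0 ≤ ν → 1 ≤ D →
      D * ν ^ k ≤ N ^ k → (ν : ℝ) ^ (1 + (k : ℝ) / (k + 1)) ≤ N → ∃ A : ℕ,
      ∀ (R : Type) [Finite R] [Nonempty R] (C : R → LiteralCircuit (Clause N k)) (s : ℕ) (α : ℝ),
        (∀ ρ, (C ρ).s ≤ s) →
        (∀ x, numSat x ≤ 2 ^ A → α + (ν : ℝ) ^ (-δ) ≤ faultyAcceptance C D x) →
        (∀ x, 2 ^ (A + N / ν) ≤ numSat x → acceptance C x ≤ α) →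
        (ν : ℝ) ^ (δ * (ν : ℝ) ^ ((k : ℝ) / (k + 1) - ε)) ≤ s) ∧
    (∀ ε : ℝ, 0 < ε → ∀ c : ℝ, ∃ N0 : ℕ, ∀ N D G : ℕ, N0 ≤ N → 1 ≤ D →
      (D : ℝ) * (Real.log N) ^ ((k : ℝ) + 1 + ε) ≤ (N : ℝ) ^ k →
      (G : ℝ) * (Real.log N) ^ (((k : ℝ) + 1 + ε) / k) ≤ N → ∃ A : ℕ,
      ∀ (R : Type) [Finite R] [Nonempty R] (C : R → LiteralCircuit (Clause N k)) (s : ℕ) (α : ℝ),
        (∀ ρ, (C ρ).s ≤ s) →
        (∀ x, numSat x ≤ 2 ^ A → α + 1 / 3 ≤ faultyAcceptance C D x) →
        (∀ x, 2 ^ (A + G) ≤ numSat x → acceptance C x ≤ α) →
        (N : ℝ) ^ c < s) := by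
  classical
  refine ⟨?_, ?_⟩
  · intro ε hε
    obtain ⟨δ, hδ, ν0, H⟩ := Pool.Agent.Q9h3.UC.cnt_fault k hk ε hε
    refine ⟨δ, hδ, ν0, ?_⟩
    intro ν N D hν hD hDN hνN
    obtain ⟨A, hA⟩ := H ν N D hν hD hDN hνN
    refine ⟨A, ?_⟩
    intro R _ _ C s α hs h1 h2
    let _ : Fintype R := Fintype.ofFinite R
    exact hA R (fun ρ => toRC (C ρ)) α s (fun _ => rfl) hs
      (fun x hx => yes_bridge C hD (h1 x hx)) (fun x hx => no_bridge C (h2 x hx))
  · intro ε hε c
    obtain ⟨N0, H⟩ := Pool.Agent.Q9h3.UC.cnt_fault_poly k hk ε hε c
    refine ⟨N0, ?_⟩
    intro N D G hN hD hDN hG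
    obtain ⟨A, hA⟩ := H N D G hN hD hDN hG
    refine ⟨A, ?_⟩
    intro R _ _ C s α hs h1 h2
    let _ : Fintype R := Fintype.ofFinite R
    exact hA R (fun ρ => toRC (C ρ)) α s (fun _ => rfl) hs
      (fun x hx => yes_bridge C hD (h1 x hx)) (fun x hx => no_bridge C (h2 x hx))

end Pool.Agent.Results.MP_4ed1f9_lc.ApproximateCounting
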