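import Pool.Agent.Q9h3.US.Poly

/-!
# Satisfiability and circuits of polynomial size whose negated inputs are unreliable

The NP-complete problem `k`-SAT (`k ≥ 3`): the input consists of the bits `x c` for all sets `c` of at
most `k` literals in `N` variables, and `x c` tells whether the clause `c` is in the formula.

The model: randomised circuits whose inputs are these bits and their negations, with gates that
compute arbitrary nondecreasing real functions of two arguments. All circuits with AND, OR and NOT
gates can be brought into this form by doubling their size. No bound on the depth is assumed. A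
randomised circuit is a finite nonempty family of circuits from which one is chosen uniformly at
random.

Faults: each negated input (the information that `c` is not in the formula) is stuck at `0`,
independently with probability `1 / D`. The other inputs are reliable. The circuits accept the
unsatisfiable formulas.

Results:

* If `D ν ^ k ≤ N ^ k`, then circuits of size less than `ν ^ (δ ν ^ (k / (k + 1) - ε))` do not even have
  the advantage `ν ^ (-δ)`. The bound holds for all `ν` from a constant up to `N`; for `ν = N` all
  negated inputs are useless, and the bound is the one for monotone circuits.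
* So for 3-SAT, circuits of polynomial size are impossible if the expected number of faults among
  the `Θ(N ^ 3)` negated inputs is at least `C (log N) ^ (4 + ε)` for some constant `C`.
* Conversely, if the expected number of faults is at most `1 / 3`, then each circuit for `k`-SAT
  without faults is good enough. So the critical fault probability is `N ^ (-k + o(1))`, and
  superpolynomial lower bounds for smaller fault probabilities would separate NP/poly from P/poly.

The proof: a constraint satisfaction problem is encoded in the formula in such a way that the clause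
for a constraint can be placed at many positions that are equivalent. It gets a random one of them.
Then the positions that the other clauses would get are as good as random faulty inputs. So all
negated inputs that depend on the instance can be replaced by `0`, and this gives a randomised
monotone circuit for the constraint satisfaction problem.
-/

set_option autoImplicit false

namespace Pool.Agent.Results.MP_069684_lc.UnreliableNegations

open Finset

/-- A circuit with the gates `0, ..., s - 1` whose inputs are the bits of the elements `e` of `E` and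
their negations: `(e, true)` stands for the bit of `e` and `(e, false)` for its negation. Gate `i`
has `w i ≤ 2` inputs, namely `a i j`, each a literal (`0` or `1`) or an earlier gate; it computes a
nondecreasing function `op i` of real numbers, and its value on the values `y` of the literals is
`val y i`. The circuit accepts if the value of gate `out` is at least `τ`. -/
structure LiteralCircuit (E : Type) where
  s : ℕ
  w : Fin s → ℕ
  a : (i : Fin s) → Fin (w i) → (E × Bool) ⊕ Fin s
  op : (i : Fin s) → (Fin (w i) → ℝ) → ℝ
  val : (E × Bool → Bool) → Fin s → ℝ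
  out : Fin s
  τ : ℝ
  earlier : ∀ i j m, a i j = Sum.inr m → m < i
  mono : ∀ i, w i ≤ 2 ∧ Monotone (op i)
  spec : ∀ y i, val y i = op i (fun j =>
    Sum.elim (fun p => if y p = true then (1 : ℝ) else 0) (val y) (a i j))

/-- The clauses with at most `k` literals, where the literal `(v, b)` says that the variable `v` has
the value `b`, and the variables are `0, ..., N - 1`. -/
abbrev Clause (N k : ℕ) : Type := {c : Finset (Fin N × Bool) // c.card ≤ k}

/-- The formula with the clauses `c` such that `x c = true` is satisfiable. -/
def Satisfiable {N k : ℕ} (x : Clause N k → Bool) : Prop :=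
  ∃ α : Fin N → Bool, ∀ c : Clause N k, x c = true → ∃ p ∈ c.1, α p.1 = p.2

open Classical in
/-- The values of the literals on the input `x` if the negated inputs of the elements of `Z` are
stuck at `0`. -/
noncomputable def literals {E : Type} (x : E → Bool) (Z : Set E) : E × Bool → Bool :=
  fun p => if p.2 = true then x p.1 else if p.1 ∈ Z then false else !x p.1

/-- The circuit accepts the input `x` if the negated inputs of the elements of `Z` are stuck at
`0`. -/
def LiteralCircuit.Accepts {E : Type} (C : LiteralCircuit E) (x : E → Bool) (Z : Set E) : Prop :=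
  C.τ ≤ C.val (literals x Z) C.out

/-- The probability that the input `x` is accepted by a circuit that is chosen uniformly at random
from the family `C`, without faults. -/
noncomputable def acceptance {E R : Type} (C : R → LiteralCircuit E) (x : E → Bool) : ℝ :=
  (Nat.card {ρ : R // (C ρ).Accepts x ∅} : ℝ) / Nat.card R

/-- The probability that the input `x` is accepted by a circuit that is chosen uniformly at random
from the family `C`, if each negated input is stuck at `0` independently with probability `1 / D`
(each element `e` gets a random number `f e` from `0` to `D - 1`, and `0` means a fault). -/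
noncomputable def faultyAcceptance {E R : Type} (C : R → LiteralCircuit E) (D : ℕ)
    (x : E → Bool) : ℝ :=
  (Nat.card {v : R × (E → Fin D) // (C v.1).Accepts x {e | (v.2 e : ℕ) = 0}} : ℝ) /
    Nat.card (R × (E → Fin D))

/-- The circuit in the notation of the library. -/
noncomputable def toRC {E : Type} (C : LiteralCircuit E) : Pool.Agent.W969.MC.RC (E × Bool) :=
  ⟨C.s, ∅, C.w, C.a, C.op, fun _ _ => 0, C.val, C.out, C.τ, C.earlier,
    fun i _ => C.mono i, fun i hi => absurd hi (Finset.notMem_empty i), C.spec⟩

lemma lit_eq {E : Type} (x : E → Bool) (Z : Set E) :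
    Pool.Agent.Y630.TF.lit x Z = literals x Z := by
  funext q
  unfold Pool.Agent.Y630.TF.lit literals
  by_cases hq : q.2 = true
  · rw [if_pos hq, if_pos hq]
  · rw [if_neg hq, if_neg hq]
    by_cases hZ : q.1 ∈ Z
    · simp [hZ]
    · simp [hZ]

lemma yes_bridge {E R : Type} [Fintype E] [Fintype R] [Nonempty R] (C : R → LiteralCircuit E)
    {D : ℕ} (hD : 0 < D) {x : E → Bool} {β : ℝ} (h : β ≤ faultyAcceptance C D x) :
    β * (Fintype.card R * (D : ℝ) ^ Fintype.card E) ≤
      ({z : R × (E → Fin D) | (toRC (C z.1)).acc
        (Pool.Agent.Y630.TF.lit x (Pool.Agent.Y630.NW.Flt z.2))}.ncard : ℝ) := by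
  classical
  have hR : (0 : ℝ) < Fintype.card R := by exact_mod_cast Fintype.card_pos
  have hDR : (0 : ℝ) < D := by exact_mod_cast hD
  unfold faultyAcceptance at h
  rw [le_div_iff₀ (by
    rw [Nat.card_eq_fintype_card, Fintype.card_prod, Fintype.card_fun, Fintype.card_fin]
    push_cast
    positivity)] at h
  rw [Nat.card_eq_fintype_card (α := R × (E → Fin D)), Fintype.card_prod,
    Fintype.card_fun, Fintype.card_fin] at h
  refine (le_of_eq ?_).trans (h.trans (le_of_eq ?_))
  · push_cast
    rfl
  congr 1
  show Nat.card ↥{v : R × (E → Fin D) | (C v.1).Accepts x {c | (v.2 c : ℕ) = 0}} = _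
  rw [Nat.card_coe_set_eq]
  congr 1
  ext v
  show (C v.1).τ ≤ (C v.1).val (literals x {c | (v.2 c : ℕ) = 0}) (C v.1).out ↔
    (C v.1).τ ≤ (C v.1).val (Pool.Agent.Y630.TF.lit x (Pool.Agent.Y630.NW.Flt v.2)) (C v.1).out
  rw [lit_eq]
  rfl

lemma no_bridge {E R : Type} [Fintype R] [Nonempty R] (C : R → LiteralCircuit E)
    {x : E → Bool} {β : ℝ} (h : acceptance C x ≤ β) :
    ({ρ : R | (toRC (C ρ)).acc (Pool.Agent.Y630.TF.lit x ∅)}.ncard : ℝ) ≤ β * Fintype.card R := by
  classical
  have hR : (0 : ℝ) < Fintype.card R := by exact_mod_cast Fintype.card_pos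
  unfold acceptance at h
  rw [div_le_iff₀ (by rw [Nat.card_eq_fintype_card]; exact hR),
    Nat.card_eq_fintype_card (α := R)] at h
  refine (le_of_eq ?_).trans h
  congr 1
  show _ = Nat.card ↥{ρ : R | (C ρ).Accepts x ∅}
  rw [Nat.card_coe_set_eq]
  congr 1
  ext ρ
  show (C ρ).τ ≤ (C ρ).val (Pool.Agent.Y630.TF.lit x ∅) (C ρ).out ↔
    (C ρ).τ ≤ (C ρ).val (literals x ∅) (C ρ).out
  rw [lit_eq]

/-- It is likely that there are no faults if the fault probability is small. -/
lemma no_faults {E : Type} [Fintype E] {D : ℕ} (hD0 : 0 < D) (hD : 3 * Fintype.card E ≤ D)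
    (C : LiteralCircuit E) {x : E → Bool} (h : C.Accepts x ∅) :
    (2 : ℝ) / 3 ≤ faultyAcceptance (fun _ : Unit => C) D x := by
  classical
  have hDR : (0 : ℝ) < D := by exact_mod_cast hD0
  have h1 := Pool.Agent.Y630.NW.ncard_avoid (E := E) (D := D) Finset.univ hD0
  rw [Finset.card_univ, Nat.sub_self, pow_zero, mul_one] at h1
  have h2 : {f : E → Fin D | ∀ e ∈ (Finset.univ : Finset E), (f e : ℕ) ≠ 0}.ncard ≤
      Nat.card {v : Unit × (E → Fin D) // C.Accepts x {e | (v.2 e : ℕ) = 0}} := by
    have h3 : ((fun f : E → Fin D => (((), f) : Unit × (E → Fin D))) ''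
        {f : E → Fin D | ∀ e ∈ (Finset.univ : Finset E), (f e : ℕ) ≠ 0}) ⊆
        {v : Unit × (E → Fin D) | C.Accepts x {e | (v.2 e : ℕ) = 0}} := by
      rintro _ ⟨f, hf, rfl⟩
      have h4 : {e | (f e : ℕ) = 0} = (∅ : Set E) := by
        ext e
        simp only [Set.mem_setOf_eq, Set.mem_empty_iff_false, iff_false]
        exact hf e (Finset.mem_univ e)
      show C.Accepts x {e | (f e : ℕ) = 0}
      rw [h4]
      exact h
    have h4 := Set.ncard_le_ncard h3 (Set.toFinite _)
    rw [Set.ncard_image_of_injective _ (fun f g hh => (Prod.mk.inj hh).2)] at h4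
    exact h4
  unfold faultyAcceptance
  have h5 : (Nat.card (Unit × (E → Fin D)) : ℝ) = (D : ℝ) ^ Fintype.card E := by
    rw [Nat.card_eq_fintype_card, Fintype.card_prod, Fintype.card_fun, Fintype.card_fin,
      Fintype.card_unit]
    push_cast
    ring
  rw [h5, le_div_iff₀ (by positivity)]
  have h6 : (((D - 1) ^ Fintype.card E : ℕ) : ℝ) ≤
      (Nat.card {v : Unit × (E → Fin D) // C.Accepts x {e | (v.2 e : ℕ) = 0}} : ℝ) := by
    rw [← h1]
    exact_mod_cast h2
  refine le_trans ?_ h6
  push_cast [Nat.cast_sub (show 1 ≤ D from hD0)]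
  have h8 : ((D : ℝ) - 1) = D * (1 + -(1 / (D : ℝ))) := by
    field_simp
    ring
  rw [h8, mul_pow, mul_comm]
  apply mul_le_mul_of_nonneg_left _ (by positivity)
  have h9 : (1 : ℝ) / D ≤ 1 := by
    rw [div_le_one hDR]
    exact_mod_cast hD0
  have h10 := one_add_mul_le_pow (show (-2 : ℝ) ≤ -(1 / (D : ℝ)) by linarith) (Fintype.card E)
  refine le_trans ?_ h10
  have h11 : (Fintype.card E : ℝ) * (1 / (D : ℝ)) ≤ 1 / 3 := by
    rw [mul_one_div, div_le_div_iff₀ hDR (by norm_num)]
    have : (3 : ℝ) * Fintype.card E ≤ D := by exact_mod_cast hD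
    linarith
  linarith

/-- Circuits for satisfiability of `k`-CNF formulas with `N` variables (`k ≥ 3`) whose negated inputs
are stuck at `0` independently with probability `1 / D`. `C` is a randomised circuit on literals with
nondecreasing real gates of fan-in at most two and with at most `s` gates.

(1) For every `ε > 0` there are `δ > 0` and `ν0` such that for all `ν ≥ ν0`, `N` and `D ≥ 1` with
`D ν ^ k ≤ N ^ k`: if for some `α` all unsatisfiable formulas are accepted with probability at least
`α + ν ^ (-δ)` under faults, and all satisfiable formulas are accepted with probability at most `α`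
without faults, then `ν ^ (δ ν ^ (k / (k + 1) - ε)) ≤ s`.

(2) For all `ε > 0` and `c`, all large `N` and all `D ≥ 1` with `D (log N) ^ (k + 1 + ε) ≤ N ^ k`: if for
some `α` all unsatisfiable formulas are accepted with probability at least `α + 1 / 3` under faults,
and all satisfiable formulas are accepted with probability at most `α` without faults, then
`N ^ c < s`.

(3) If `D ≥ 1` is at least three times the number of possible clauses, then each circuit that accepts
exactly the unsatisfiable formulas without faults accepts them with probability at least `2 / 3` under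
faults. -/
theorem result (k : ℕ) (hk : 3 ≤ k) :
    (∀ ε : ℝ, 0 < ε → ∃ δ : ℝ, 0 < δ ∧ ∃ ν0 : ℕ, ∀ ν N D : ℕ, ν0 ≤ ν → 1 ≤ D →
      D * ν ^ k ≤ N ^ k →
      ∀ (R : Type) [Finite R] [Nonempty R] (C : R → LiteralCircuit (Clause N k)) (s : ℕ) (α : ℝ),
        (∀ ρ, (C ρ).s ≤ s) →
        (∀ x, ¬ Satisfiable x → α + (ν : ℝ) ^ (-δ) ≤ faultyAcceptance C D x) →
        (∀ x, Satisfiable x → acceptance C x ≤ α) →
        (ν : ℝ) ^ (δ * (ν : ℝ) ^ ((k : ℝ) / (k + 1) - ε)) ≤ s) ∧
    (∀ ε : ℝ, 0 < ε → ∀ c : ℝ, ∃ N0 : ℕ, ∀ N D : ℕ, N0 ≤ N → 1 ≤ D →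
      (D : ℝ) * (Real.log N) ^ ((k : ℝ) + 1 + ε) ≤ (N : ℝ) ^ k →
      ∀ (R : Type) [Finite R] [Nonempty R] (C : R → LiteralCircuit (Clause N k)) (s : ℕ) (α : ℝ),
        (∀ ρ, (C ρ).s ≤ s) →
        (∀ x, ¬ Satisfiable x → α + 1 / 3 ≤ faultyAcceptance C D x) →
        (∀ x, Satisfiable x → acceptance C x ≤ α) →
        (N : ℝ) ^ c < s) ∧
    (∀ N D : ℕ, 1 ≤ D → 3 * Nat.card (Clause N k) ≤ D → ∀ C : LiteralCircuit (Clause N k),
      (∀ x, C.Accepts x ∅ ↔ ¬ Satisfiable x) →
      ∀ x, ¬ Satisfiable x → 2 / 3 ≤ faultyAcceptance (fun _ : Unit => C) D x) := by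
  classical
  refine ⟨?_, ?_, ?_⟩
  · intro ε hε
    obtain ⟨δ, hδ, ν0, H⟩ := Pool.Agent.Q9h3.US.sat_fault k hk ε hε
    refine ⟨δ, hδ, ν0, ?_⟩
    intro ν N D hν hD hDN R _ _ C s α hs h1 h2
    let _ : Fintype R := Fintype.ofFinite R
    exact H ν N D hν hD hDN R (fun ρ => toRC (C ρ)) α s (fun _ => rfl) hs
      (fun x hx => yes_bridge C hD (h1 x hx)) (fun x hx => no_bridge C (h2 x hx))
  · intro ε hε c
    obtain ⟨N0, H⟩ := Pool.Agent.Q9h3.US.sat_fault_poly k hk ε hε c
    refine ⟨N0, ?_⟩
    intro N D hN hD hDN R _ _ C s α hs h1 h2
    let _ : Fintype R := Fintype.ofFinite R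
    exact H N D hN hD hDN R (fun ρ => toRC (C ρ)) α s (fun _ => rfl) hs
      (fun x hx => yes_bridge C hD (h1 x hx)) (fun x hx => no_bridge C (h2 x hx))
  · intro N D hD hDN C hC x hx
    refine no_faults hD ?_ C ((hC x).mpr hx)
    rw [← Nat.card_eq_fintype_card]
    exact hDN

end Pool.Agent.Results.MP_069684_lc.UnreliableNegations
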